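import Mathlib

namespace Pool.Agent.Results.MP_4780e6_al.OneSided

def val {R : Type} [Ring R] {v : ℕ} (M : Fin v → Fin v → Rˣ) : Matrix (Fin v) (Fin v) R :=
  Matrix.of fun i j => (M i j : R)

def star' {R : Type} [Ring R] {v : ℕ} (M : Fin v → Fin v → Rˣ) : Matrix (Fin v) (Fin v) R :=
  Matrix.of fun i j => (((M j i)⁻¹ : Rˣ) : R)

def u1 : (ZMod 8)ˣ := ⟨1, 1, by decide, by decide⟩
def u3 : (ZMod 8)ˣ := ⟨3, 3, by decide, by decide⟩
def u5 : (ZMod 8)ˣ := ⟨5, 5, by decide, by decide⟩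
def u7 : (ZMod 8)ˣ := ⟨7, 7, by decide, by decide⟩

def M0 : Fin 4 → Fin 4 → (ZMod 8)ˣ :=
  ![![u1, u1, u1, u1], ![u1, u1, u3, u3], ![u1, u3, u1, u3], ![u1, u3, u7, u5]]

theorem result :
    ¬ ∀ (R : Type) [Ring R] (v : ℕ) (N : Subgroup Rˣ) (M : Fin v → Fin v → Rˣ),
      2 ≤ v → (v : R) ≠ 0 → (∀ i j, M i j ∈ N) →
      val M * star' M = (v : R) • (1 : Matrix (Fin v) (Fin v) R) →
      star' M * val M = (v : R) • (1 : Matrix (Fin v) (Fin v) R) := by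
  intro h
  have h1 : val M0 * star' M0 = ((4 : ℕ) : ZMod 8) • (1 : Matrix (Fin 4) (Fin 4) (ZMod 8)) := by
    decide +kernel
  have h2 := h (ZMod 8) 4 ⊤ M0 (by norm_num) (by decide) (fun _ _ => Subgroup.mem_top _) h1
  revert h2
  decide +kernel

end Pool.Agent.Results.MP_4780e6_al.OneSided
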